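import Mathlib

/-!
Targets for MP_04ff0f_nt (numbers of prime factors of `p_k^2-2`, `p_m^2-2`, `p_{p_m}^2-2`,
`k+m=n`), first theorem. Board pf_modules.
-/

set_option autoImplicit false

open Finset Real

namespace Pool.Agent.H30.PF

/-- number of prime factors of `n` in `(u, v]`, counted with multiplicity -/
def Om (u v n : ℕ) : ℕ := (n.primeFactorsList.filter (fun q => decide (u < q ∧ q ≤ v))).length

/-- `∑_{d ∣ n} G z d = z ^ Ω(n)` -/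
noncomputable def G (z : ℝ) (d : ℕ) : ℝ :=
  ∏ q ∈ d.primeFactors, (z ^ d.factorization q - z ^ (d.factorization q - 1))

/-- the odd primes for which `2` is a square are those with `q = 1, 7 mod 8` -/
def S8 (q : ℕ) : Prop := q % 8 = 1 ∨ q % 8 = 7

instance : DecidablePred S8 := fun q => inferInstanceAs (Decidable (q % 8 = 1 ∨ q % 8 = 7))

/-- the `j`-th prime, `p_1 = 2` -/
noncomputable def pr (j : ℕ) : ℕ := Nat.nth Nat.Prime (j - 1)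

/-- divisor sum of `G` -/
def T_SG : Prop :=
  ∀ (z : ℝ) (n : ℕ), n ≠ 0 → ∑ d ∈ n.divisors, G z d = z ^ n.primeFactorsList.length

/-- truncated divisor sum -/
def T_TR : Prop :=
  ∀ (z : ℝ) (u v J n : ℕ), 1 ≤ z → n ≠ 0 →
    z ^ (min (Om u v n) J) ≤ ∑ d ∈ n.divisors.filter
      (fun d => d.primeFactorsList.length ≤ J ∧ ∀ q ∈ d.primeFactors, u < q ∧ q ≤ v), G z d

/-- square roots of `2` modulo an odd number -/
def T_RT : Prop :=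
  ∀ d : ℕ, Odd d →
    ((range d).filter (fun a => a ^ 2 % d = 2 % d)).card ≤ 2 ^ d.primeFactors.card ∧
    ∀ a : ℕ, a ^ 2 % d = 2 % d → Nat.Coprime a d ∧ ∀ q ∈ d.primeFactors, S8 q

/-- Brun-Titchmarsh inequality -/
def T_BT : Prop :=
  ∃ C : ℝ, 0 < C ∧ ∀ x d a : ℕ, 2 ≤ x → 1 ≤ d → d ^ 4 ≤ x → Nat.Coprime a d →
    (((Icc 1 x).filter (fun p => p.Prime ∧ p % d = a % d)).card : ℝ) ≤
      C * x / (d.totient * log x)

/-- Euler product bound -/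
def T_EU : Prop :=
  ∀ z : ℝ, 1 ≤ z → ∃ C : ℝ, ∀ P : Finset ℕ, (∀ q ∈ P, q.Prime ∧ 3 ≤ q ∧ 2 * z ≤ (q : ℝ)) →
    ∀ D : Finset ℕ, (∀ d ∈ D, d ≠ 0 ∧ d.primeFactors ⊆ P) →
      ∑ d ∈ D, G z d * 2 ^ d.primeFactors.card / d.totient ≤
        exp (C + 2 * (z - 1) * ∑ q ∈ P, (1 : ℝ) / q)

/-- Mertens for the primes `1, 7 mod 8` (upper bound) -/
def T_M8 : Prop :=
  ∃ C : ℝ, ∀ y : ℕ, 3 ≤ y →
    ∑ q ∈ (Icc 1 y).filter (fun q => q.Prime ∧ S8 q), (1 : ℝ) / q ≤ 1 / 2 * log (log y) + C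

/-- Mertens in an interval (upper bound) -/
def T_MR : Prop :=
  ∃ C : ℝ, ∀ u v : ℕ, 2 ≤ u → u ≤ v →
    ∑ q ∈ (Ioc u v).filter Nat.Prime, (1 : ℝ) / q ≤ log (log v / log u) + C

/-- truncated moments of the number of prime factors of `p^2-2` -/
def T_GM : Prop :=
  ∀ z : ℝ, 1 ≤ z → ∃ C : ℝ, 0 < C ∧ ∀ x u v J : ℕ, 2 ≤ x → v ^ (4 * J) ≤ x →
    (∀ q : ℕ, q.Prime → u < q → q ≤ v → S8 q → 2 * z ≤ (q : ℝ)) →
    ∑ p ∈ (Icc 3 x).filter Nat.Prime, z ^ (min (Om u v (p ^ 2 - 2)) J) ≤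
      C * x / log x *
        exp (2 * (z - 1) * ∑ q ∈ (Ioc u v).filter (fun q => q.Prime ∧ S8 q), (1 : ℝ) / q)

/-- many small prime factors -/
def T_E1 : Prop :=
  ∀ z : ℝ, 1 ≤ z → z ≤ 3 → ∃ C : ℝ, 0 < C ∧ ∀ x v J : ℕ, 3 ≤ v → v ≤ x → v ^ (4 * J) ≤ x →
    ∀ α : ℝ, 0 ≤ α → α * log (log x) ≤ J →
    (((Icc 3 x).filter (fun p => p.Prime ∧
      α * log (log x) ≤ (Om 0 v (p ^ 2 - 2) : ℝ))).card : ℝ) ≤
      C * x / log x * (log x) ^ (z - 1 - α * log z)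

/-- many prime factors of middle size -/
def T_E2 : Prop :=
  ∀ θ c B : ℝ, 0 < θ → θ ≤ c → 0 ≤ B → ∃ (C : ℝ) (x₀ : ℕ), ∀ x : ℕ, x₀ ≤ x →
    (((Icc 3 x).filter (fun p => p.Prime ∧ θ * log (log x) / 4 ≤
      (Om ⌊(x : ℝ) ^ (1 / (c * log (log x)))⌋₊ ⌊(x : ℝ) ^ (1 / (θ * log (log x)))⌋₊
        (p ^ 2 - 2) : ℝ))).card : ℝ) ≤ C * x / (log x) ^ B

/-- many prime factors -/
def T_EX : Prop :=
  ∀ z α η B : ℝ, 1 ≤ z → z ≤ 3 → 0 ≤ α → 0 < η → 0 ≤ B → ∃ (C : ℝ) (x₀ : ℕ), ∀ x : ℕ, x₀ ≤ x →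
    (((Icc 3 x).filter (fun p => p.Prime ∧
      (α + η) * log (log x) ≤ ((p ^ 2 - 2).primeFactorsList.length : ℝ))).card : ℝ) ≤
      C * x / log x * (log x) ^ (z - 1 - α * log z) + C * x / (log x) ^ B

/-- Chebyshev for the `n`-th prime -/
def T_PN : Prop :=
  ∃ C : ℝ, 0 < C ∧ ∀ n : ℕ, 2 ≤ n → (pr n : ℝ) ≤ C * n * log n

/-- the split `n = k + m` is good -/
def Good (ε : ℝ) (n k m : ℕ) : Prop :=
  (ArithmeticFunction.cardFactors (pr k ^ 2 - 2) : ℝ) ≤ (1 + ε) * log (log n) ∧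
  (ArithmeticFunction.cardFactors (pr m ^ 2 - 2) : ℝ) ≤ (1 + ε) * log (log n) ∧
  (ArithmeticFunction.cardFactors (pr (pr m) ^ 2 - 2) : ℝ) ≤ (exp 1 + ε) * log (log n)

open Classical in
/-- almost all splits are good -/
def T_FA : Prop :=
  ∀ ε : ℝ, 0 < ε → ∃ (δ : ℝ) (n₀ : ℕ), 0 < δ ∧ ∀ n : ℕ, n₀ ≤ n →
    (((Icc 1 (n - 1)).filter (fun k => ¬ Good ε n k (n - k))).card : ℝ) ≤ n / (log n) ^ δ

end Pool.Agent.H30.PF
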