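import Pool.Agent.H30.PF.Targets

/-!
Module FA of the board pf_modules.
-/

set_option autoImplicit false

open Finset Real Filter

namespace Pool.Agent.H30.PF

theorem pr_prime (j : ℕ) : (pr j).Prime := Nat.prime_nth_prime _

theorem pr_mono {i j : ℕ} (h : i ≤ j) : pr i ≤ pr j :=
  (Nat.nth_strictMono Nat.infinite_setOfPred_prime).monotone (by omega)

theorem pr_strict {i j : ℕ} (h1 : 1 ≤ i) (h : i < j) : pr i < pr j :=
  Nat.nth_strictMono Nat.infinite_setOfPred_prime (by omega)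

theorem le_pr {j : ℕ} (h : 1 ≤ j) : j + 1 ≤ pr j := by
  have := Nat.add_two_le_nth_prime (j - 1)
  unfold pr
  omega

theorem pr_inj {i j : ℕ} (hi : 1 ≤ i) (hj : 1 ≤ j) (h : pr i = pr j) : i = j := by
  rcases lt_trichotomy i j with h1 | h1 | h1
  · exact absurd h (pr_strict hi h1).ne
  · exact h1
  · exact absurd h (pr_strict hj h1).ne'

theorem tends_log : Tendsto (fun n : ℕ => log (n : ℝ)) atTop atTop :=
  Real.tendsto_log_atTop.comp tendsto_natCast_atTop_atTop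

theorem tends_loglog : Tendsto (fun n : ℕ => log (log (n : ℝ))) atTop atTop :=
  Real.tendsto_log_atTop.comp tends_log

theorem ev_log_pow (C : ℝ) (k : ℕ) : ∀ᶠ n : ℕ in atTop, C * (log (n : ℝ)) ^ k ≤ n := by
  have h := (isLittleO_pow_log_id_atTop (n := k)).comp_tendsto tendsto_natCast_atTop_atTop
  have h2 := h.bound (show (0 : ℝ) < 1 / (|C| + 1) by positivity)
  filter_upwards [h2, eventually_ge_atTop 1] with n hn h1
  simp only [Function.comp_apply, id_eq, norm_eq_abs, Nat.abs_cast] at hn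
  have h3 : C * (log (n : ℝ)) ^ k ≤ (|C| + 1) * |(log (n : ℝ)) ^ k| := by
    calc C * (log (n : ℝ)) ^ k ≤ |C * (log (n : ℝ)) ^ k| := le_abs_self _
      _ = |C| * |(log (n : ℝ)) ^ k| := abs_mul _ _
      _ ≤ _ := mul_le_mul_of_nonneg_right (by linarith) (abs_nonneg _)
  refine h3.trans ?_
  rw [one_div, inv_mul_eq_div, le_div_iff₀ (by positivity)] at hn
  linarith

/-- the exceptional set for one prime -/
theorem bad_card {X : ℕ} {n : ℕ} {a b : ℝ} (f : ℕ → ℕ) (hf : ∀ k ∈ Icc 1 (n - 1), (f k).Prime)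
    (hX : ∀ k ∈ Icc 1 (n - 1), f k ≤ X)
    (hinj : ∀ k ∈ Icc 1 (n - 1), ∀ l ∈ Icc 1 (n - 1), f k = f l → k = l) (h1 : 1 ≤ b) (hab : a ≤ b) :
    (((Icc 1 (n - 1)).filter
      (fun k => ¬ ((ArithmeticFunction.cardFactors (f k ^ 2 - 2) : ℝ) ≤ b))).card : ℝ) ≤
    (((Icc 3 X).filter (fun p => p.Prime ∧
      a ≤ ((p ^ 2 - 2).primeFactorsList.length : ℝ))).card : ℝ) := by
  have h : ((Icc 1 (n - 1)).filter
      (fun k => ¬ ((ArithmeticFunction.cardFactors (f k ^ 2 - 2) : ℝ) ≤ b))).card ≤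
      ((Icc 3 X).filter (fun p => p.Prime ∧
        a ≤ ((p ^ 2 - 2).primeFactorsList.length : ℝ))).card := by
    refine Finset.card_le_card_of_injOn f ?_ ?_
    · intro k hk
      rw [mem_coe, mem_filter, not_le] at hk
      rw [mem_coe, mem_filter, mem_Icc]
      have hp := hf k hk.1
      have h2 := hk.2
      rw [ArithmeticFunction.cardFactors_apply] at h2
      refine ⟨⟨?_, hX k hk.1⟩, hp, by linarith⟩
      have h3 := hp.two_le
      rcases Nat.lt_or_ge 2 (f k) with h4 | h4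
      · omega
      · have h5 : f k = 2 := by omega
        rw [h5] at h2
        have h6 : (2 ^ 2 - 2 : ℕ).primeFactorsList.length = 1 := by norm_num
        rw [h6] at h2
        push_cast at h2
        linarith
    · intro k hk l hl hkl
      exact hinj k (mem_filter.1 (mem_coe.1 hk)).1 l (mem_filter.1 (mem_coe.1 hl)).1 hkl
  exact_mod_cast h

theorem loglog_le {n x : ℝ} (hn : 1 < log n) (hx : 0 < log x) (h : log x ≤ 2 * log n) :
    log (log x) ≤ log (log n) + log 2 := by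
  have h1 : log (log x) ≤ log (2 * log n) := log_le_log hx h
  rw [log_mul (by norm_num) (by linarith)] at h1
  linarith

/-- `X (log X)^(-s) ≤ K n (log n)^(r-s)` -/
theorem ratio_le {n X K r s : ℝ} (hn : 1 < log n) (hK : 0 ≤ K) (hn0 : 0 ≤ n) (hs : 0 ≤ s)
    (hnX : log n ≤ log X) (hX : X ≤ K * n * (log n) ^ r) :
    X * (log X) ^ (-s) ≤ K * n * (log n) ^ (r - s) := by
  have h0 : 0 < log n := by linarith
  have h1 : (log X) ^ (-s) ≤ (log n) ^ (-s) :=
    rpow_le_rpow_of_nonpos h0 hnX (by linarith)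
  have h2 : 0 ≤ (log X) ^ (-s) := (rpow_pos_of_pos (by linarith) _).le
  calc X * (log X) ^ (-s) ≤ (K * n * (log n) ^ r) * (log X) ^ (-s) :=
        mul_le_mul_of_nonneg_right hX h2
    _ ≤ (K * n * (log n) ^ r) * (log n) ^ (-s) := by
        refine mul_le_mul_of_nonneg_left h1 ?_
        have := rpow_pos_of_pos h0 r
        positivity
    _ = _ := by
        rw [mul_assoc, ← rpow_add h0]
        congr 1

theorem thr {a η ε L t : ℝ} (ha : 1 ≤ a) (ha3 : a ≤ 3) (hη : 0 < η) (hη1 : η ≤ 1 / 4)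
    (hε : 4 * η ≤ ε) (hL : 0 ≤ L) (h4 : 4 ≤ 2 * η * L) (ht : t ≤ L + log 2) :
    (a + η + η) * t ≤ (a + ε) * L := by
  have hlog2 : log 2 ≤ 1 := by
    have := log_two_lt_d9
    linarith
  have h1 : (a + η + η) * t ≤ (a + η + η) * (L + 1) :=
    mul_le_mul_of_nonneg_left (by linarith) (by linarith)
  have h2 : (a + 4 * η) * L ≤ (a + ε) * L := mul_le_mul_of_nonneg_right (by linarith) hL
  have h3 : (a + η + η) * (L + 1) = (a + 4 * η) * L - 2 * η * L + (a + η + η) := by ring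
  linarith

theorem fin_le {K n P : ℝ} (hn : 0 ≤ n) (hP : 0 < P) (h : K ≤ P) :
    K * n * (P⁻¹ * P⁻¹) ≤ n / P := by
  have h5 : K * P⁻¹ ≤ 1 := by
    rw [← div_eq_mul_inv, div_le_one hP]
    exact h
  have h7 : 0 ≤ n * P⁻¹ := by positivity
  calc K * n * (P⁻¹ * P⁻¹) = (K * P⁻¹) * (n * P⁻¹) := by ring
    _ ≤ 1 * (n * P⁻¹) := mul_le_mul_of_nonneg_right h5 h7
    _ = n / P := by rw [one_mul, div_eq_mul_inv]

theorem sq_bound {x n l A : ℝ} (hx : x ≤ A * n * l) (hn : 0 ≤ n) (hA : A * l ≤ n) : x ≤ n * n := by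
  calc x ≤ A * n * l := hx
    _ = n * (A * l) := by ring
    _ ≤ n * n := mul_le_mul_of_nonneg_left hA hn

theorem log_two_bound {x n : ℝ} (hn : 0 < n) (hx : 0 < x) (h : x ≤ n * n) : log x ≤ 2 * log n := by
  have h3 := log_le_log hx h
  rw [log_mul hn.ne' hn.ne'] at h3
  linarith

theorem one_le_thr {a L : ℝ} (ha : 1 ≤ a) (hL : 1 ≤ L) : 1 ≤ a * L := by
  calc (1 : ℝ) = 1 * 1 := by ring
    _ ≤ a * L := mul_le_mul ha hL (by norm_num) (by linarith)

theorem two_terms {C1 a b c : ℝ} (h1 : a ≤ c) (h2 : b ≤ c) (ha : 0 ≤ a) (hb : 0 ≤ b) :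
    C1 * a + C1 * b ≤ 2 * |C1| * c := by
  have q1 : C1 * a ≤ |C1| * c := (mul_le_mul_of_nonneg_right (le_abs_self C1) ha).trans
    (mul_le_mul_of_nonneg_left h1 (abs_nonneg _))
  have q2 : C1 * b ≤ |C1| * c := (mul_le_mul_of_nonneg_right (le_abs_self C1) hb).trans
    (mul_le_mul_of_nonneg_left h2 (abs_nonneg _))
  linarith

theorem delta_pos {η : ℝ} (hη : 0 < η) : 0 < (1 + η) * log (1 + η) - η := by
  have h3 : log ((1 + η)⁻¹) < (1 + η)⁻¹ - 1 := by
    refine log_lt_sub_one_of_pos (by positivity) ?_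
    intro h
    rw [inv_eq_one] at h
    linarith
  rw [log_inv] at h3
  have h4 : (1 + η) * (1 + η)⁻¹ = 1 := mul_inv_cancel₀ (by linarith)
  have h5 : (1 + η) * (-log (1 + η)) < (1 + η) * ((1 + η)⁻¹ - 1) :=
    mul_lt_mul_of_pos_left h3 (by linarith)
  have h6 : (1 + η) * ((1 + η)⁻¹ - 1) = -η := by rw [mul_sub, h4]; ring
  linarith

theorem fa (hEX : T_EX) (hPN : T_PN) : T_FA := by
  intro ε hε
  obtain ⟨C, hC, hPN⟩ := hPN
  set ε1 : ℝ := min ε 1 with hε1
  have hε10 : 0 < ε1 := lt_min hε one_pos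
  have hε11 : ε1 ≤ 1 := min_le_right _ _
  have hε1ε : ε1 ≤ ε := min_le_left _ _
  set η : ℝ := ε1 / 4 with hη
  have hη0 : 0 < η := by positivity
  have hη1 : η ≤ 1 / 4 := by rw [hη]; linarith
  have he3 : exp 1 ≤ 3 := by linarith [exp_one_lt_d9]
  have he1 : 1 ≤ exp 1 := by linarith [exp_one_gt_d9]
  obtain ⟨C1, x1, h1⟩ := hEX (1 + η) (1 + η) η 2 (by linarith) (by linarith) (by linarith) hη0
    (by norm_num)
  obtain ⟨C2, x2, h2⟩ := hEX (exp 1) (exp 1 + η) η 4 he1 he3 (by linarith) hη0 (by norm_num)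
  have hexp2 : exp 1 - 1 - (exp 1 + η) * log (exp 1) = -1 - η := by
    rw [log_exp]
    ring
  rw [hexp2] at h2
  set δ1 : ℝ := (1 + η) * log (1 + η) - η with hδ1
  have hδ10 : 0 < δ1 := delta_pos hη0
  have hexp1 : 1 + η - 1 - (1 + η) * log (1 + η) = -δ1 := by
    rw [hδ1]
    ring
  rw [hexp1] at h1
  set δ : ℝ := min δ1 η / 2 with hδ
  have hδ0 : 0 < δ := by
    have := lt_min hδ10 hη0
    positivity
  have hδa : 2 * δ ≤ δ1 := by
    have := min_le_left δ1 η
    rw [hδ]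
    linarith
  have hδb : 2 * δ ≤ η := by
    have := min_le_right δ1 η
    rw [hδ]
    linarith
  set K : ℝ := 4 * |C1| * C + 4 * |C2| * C ^ 2 with hK
  have hev : ∀ᶠ n : ℕ in atTop, x1 ≤ n ∧ x2 ≤ n ∧ 2 ≤ n ∧ 1 < log (n : ℝ) ∧
      1 ≤ log (log (n : ℝ)) ∧ C * (log (n : ℝ)) ^ 1 ≤ n ∧ 2 * C ^ 2 * (log (n : ℝ)) ^ 2 ≤ n ∧
      4 / (2 * η) ≤ log (log (n : ℝ)) ∧ K ≤ (log (n : ℝ)) ^ δ := by
    have e1 : ∀ᶠ n : ℕ in atTop, K ≤ (log (n : ℝ)) ^ δ :=
      ((tendsto_rpow_atTop hδ0).comp tends_log).eventually_ge_atTop K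
    filter_upwards [eventually_ge_atTop x1, eventually_ge_atTop x2, eventually_ge_atTop 2,
      tends_log.eventually_gt_atTop 1, tends_loglog.eventually_ge_atTop 1, ev_log_pow C 1,
      ev_log_pow (2 * C ^ 2) 2, tends_loglog.eventually_ge_atTop (4 / (2 * η)), e1]
      with n a1 a2 a3 a4 a5 a6 a7 a8 a9
    exact ⟨a1, a2, a3, a4, a5, a6, a7, a8, a9⟩
  obtain ⟨n₀, hn₀⟩ := eventually_atTop.1 hev
  refine ⟨δ, n₀, hδ0, fun n hn => ?_⟩
  obtain ⟨hx1, hx2, hn2, hln, hLL, hCn, hCn2, hLη, hKn⟩ := hn₀ n hn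
  have hn0 : (0 : ℝ) < n := by exact_mod_cast (by omega : 0 < n)
  have hl0 : 0 < log (n : ℝ) := by linarith
  set L : ℝ := log (log (n : ℝ)) with hL
  have hLη' : 4 ≤ 2 * η * L := by
    rw [div_le_iff₀ (by positivity)] at hLη
    linarith
  set x := pr n with hx
  set X := pr x with hX
  have hnx : n ≤ x := (Nat.le_succ n).trans (le_pr (by omega))
  have hxX : x ≤ X := (Nat.le_succ x).trans (le_pr (by omega))
  have hnxR : (n : ℝ) ≤ x := by exact_mod_cast hnx
  have hxXR : (x : ℝ) ≤ X := by exact_mod_cast hxX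
  have hlx : log (n : ℝ) ≤ log x := log_le_log hn0 hnxR
  have hlX : log (n : ℝ) ≤ log X := log_le_log hn0 (hnxR.trans hxXR)
  have hxle : (x : ℝ) ≤ C * n * log n := hPN n hn2
  rw [pow_one] at hCn
  have hx0 : (0 : ℝ) < x := hn0.trans_le hnxR
  have hX0 : (0 : ℝ) < X := hx0.trans_le hxXR
  have hlx2 : log (x : ℝ) ≤ 2 * log n := log_two_bound hn0 hx0 (sq_bound hxle hn0.le hCn)
  have hXle : (X : ℝ) ≤ 2 * C ^ 2 * n * (log n) ^ (2 : ℕ) := by
    have h3 : (X : ℝ) ≤ C * x * log x := hPN x (by omega)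
    have h4 : C * x * log x ≤ C * (C * n * log n) * (2 * log n) := by
      refine mul_le_mul (mul_le_mul_of_nonneg_left hxle hC.le) hlx2 (by linarith) (by positivity)
    have h5 : C * (C * n * log n) * (2 * log n) = 2 * C ^ 2 * n * (log n) ^ (2 : ℕ) := by ring
    exact (h3.trans h4).trans h5.le
  have hlX2 : log (X : ℝ) ≤ 2 * log n := log_two_bound hn0 hX0 (sq_bound hXle hn0.le hCn2)
  have hLx := loglog_le hln (by linarith) hlx2
  have hLX := loglog_le hln (by linarith) hlX2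
  have hlog2 : log 2 ≤ 1 := by
    have := log_two_lt_d9
    linarith
  -- the thresholds
  have h4η : 4 * η ≤ ε := by rw [hη]; linarith
  have hL0 : 0 ≤ L := by linarith
  have ht1 : (1 + η + η) * log (log (x : ℝ)) ≤ (1 + ε) * L :=
    thr le_rfl (by norm_num) hη0 hη1 h4η hL0 hLη' hLx
  have ht2 : (exp 1 + η + η) * log (log (X : ℝ)) ≤ (exp 1 + ε) * L :=
    thr he1 he3 hη0 hη1 h4η hL0 hLη' hLX
  have hone1 : 1 ≤ (1 + ε) * L := one_le_thr (by linarith) hLL
  have hone2 : 1 ≤ (exp 1 + ε) * L := one_le_thr (by linarith) hLL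
  -- the three exceptional sets
  have hk : ∀ k ∈ Icc 1 (n - 1), 1 ≤ k ∧ k ≤ n ∧ 1 ≤ n - k ∧ n - k ≤ n := by
    intro k hk
    rw [mem_Icc] at hk
    omega
  have b1 := bad_card (n := n) (X := x) (f := fun k => pr k) (fun k _ => pr_prime k)
    (fun k h => pr_mono (hk k h).2.1) (fun k h l h' hkl => pr_inj (hk k h).1 (hk l h').1 hkl)
    hone1 ht1
  have b2 := bad_card (n := n) (X := x) (f := fun k => pr (n - k)) (fun k _ => pr_prime _)
    (fun k h => pr_mono (hk k h).2.2.2) (fun k h l h' hkl => by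
      have h3 := pr_inj (hk k h).2.2.1 (hk l h').2.2.1 hkl
      have h4 := (hk k h).2.1
      have h5 := (hk l h').2.1
      omega)
    hone1 ht1
  have b3 := bad_card (n := n) (X := X) (f := fun k => pr (pr (n - k))) (fun k _ => pr_prime _)
    (fun k h => pr_mono (pr_mono (hk k h).2.2.2)) (fun k h l h' hkl => by
      have h6 : ∀ j, 1 ≤ pr j := fun j => (pr_prime j).one_lt.le
      have h3 := pr_inj (hk k h).2.2.1 (hk l h').2.2.1 (pr_inj (h6 _) (h6 _) hkl)
      have h4 := (hk k h).2.1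
      have h5 := (hk l h').2.1
      omega)
    hone2 ht2
  have c1 := h1 x (hx1.trans hnx)
  have c2 := h2 X (hx2.trans (hnx.trans hxX))
  -- the sizes
  have hlx0 : 0 < log (x : ℝ) := by linarith
  have hlX0 : 0 < log (X : ℝ) := by linarith
  have s1 : (x : ℝ) / log x * (log x) ^ (-δ1) ≤ C * n * (log n) ^ (-(2 * δ)) := by
    have e1 : (x : ℝ) / log x * (log x) ^ (-δ1) = x * (log x) ^ (-(1 + δ1)) := by
      rw [neg_add, rpow_add hlx0, rpow_neg_one]
      ring
    rw [e1]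
    have := ratio_le (r := 1) (s := 1 + δ1) hln hC.le hn0.le (by linarith) hlx (by
      rw [rpow_one]
      exact hxle)
    refine this.trans ?_
    refine mul_le_mul_of_nonneg_left ?_ (by positivity)
    exact rpow_le_rpow_of_exponent_le hln.le (by linarith)
  have s2 : (x : ℝ) / (log x) ^ (2 : ℝ) ≤ C * n * (log n) ^ (-(2 * δ)) := by
    have e1 : (x : ℝ) / (log x) ^ (2 : ℝ) = x * (log x) ^ (-(2 : ℝ)) := by
      rw [rpow_neg hlx0.le]
      ring
    rw [e1]
    have := ratio_le (r := 1) (s := 2) hln hC.le hn0.le (by norm_num) hlx (by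
      rw [rpow_one]
      exact hxle)
    refine this.trans ?_
    refine mul_le_mul_of_nonneg_left ?_ (by positivity)
    exact rpow_le_rpow_of_exponent_le hln.le (by linarith)
  have hXle' : (X : ℝ) ≤ 2 * C ^ 2 * n * (log n) ^ (2 : ℝ) := by
    rw [rpow_two]
    exact hXle
  have s3 : (X : ℝ) / log X * (log X) ^ (-1 - η) ≤ 2 * C ^ 2 * n * (log n) ^ (-(2 * δ)) := by
    have e1 : (X : ℝ) / log X * (log X) ^ (-1 - η) = X * (log X) ^ (-(2 + η)) := by
      have e2 : -(2 + η) = -1 + (-1 - η) := by ring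
      rw [e2, rpow_add hlX0, rpow_neg_one]
      ring
    rw [e1]
    have := ratio_le (r := 2) (s := 2 + η) hln (by positivity : 0 ≤ 2 * C ^ 2) hn0.le
      (by linarith) hlX hXle'
    refine this.trans ?_
    refine mul_le_mul_of_nonneg_left ?_ (by positivity)
    exact rpow_le_rpow_of_exponent_le hln.le (by linarith)
  have s4 : (X : ℝ) / (log X) ^ (4 : ℝ) ≤ 2 * C ^ 2 * n * (log n) ^ (-(2 * δ)) := by
    have e1 : (X : ℝ) / (log X) ^ (4 : ℝ) = X * (log X) ^ (-(4 : ℝ)) := by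
      rw [rpow_neg hlX0.le]
      ring
    rw [e1]
    have := ratio_le (r := 2) (s := 4) hln (by positivity : 0 ≤ 2 * C ^ 2) hn0.le
      (by norm_num) hlX hXle'
    refine this.trans ?_
    refine mul_le_mul_of_nonneg_left ?_ (by positivity)
    exact rpow_le_rpow_of_exponent_le hln.le (by linarith)
  set W : ℝ := (log (n : ℝ)) ^ (-(2 * δ)) with hW
  have hW0 : 0 ≤ W := (rpow_pos_of_pos hl0 _).le
  have c1' : C1 * x / log x * (log x) ^ (-δ1) + C1 * x / (log x) ^ (2 : ℝ) ≤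
      2 * |C1| * (C * n * W) := by
    have e1 : C1 * x / log x * (log x) ^ (-δ1) = C1 * (x / log x * (log x) ^ (-δ1)) := by ring
    have e2 : C1 * x / (log x) ^ (2 : ℝ) = C1 * (x / (log x) ^ (2 : ℝ)) := by ring
    rw [e1, e2]
    exact two_terms s1 s2 (by positivity) (by positivity)
  have c2' : C2 * X / log X * (log X) ^ (-1 - η) + C2 * X / (log X) ^ (4 : ℝ) ≤
      2 * |C2| * (2 * C ^ 2 * n * W) := by
    have e1 : C2 * X / log X * (log X) ^ (-1 - η) = C2 * (X / log X * (log X) ^ (-1 - η)) := by ring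
    have e2 : C2 * X / (log X) ^ (4 : ℝ) = C2 * (X / (log X) ^ (4 : ℝ)) := by ring
    rw [e1, e2]
    exact two_terms s3 s4 (by positivity) (by positivity)
  classical
  have hsub : (Icc 1 (n - 1)).filter (fun k => ¬ Good ε n k (n - k)) ⊆
      (Icc 1 (n - 1)).filter
        (fun k => ¬ ((ArithmeticFunction.cardFactors (pr k ^ 2 - 2) : ℝ) ≤ (1 + ε) * L)) ∪
      ((Icc 1 (n - 1)).filter
        (fun k => ¬ ((ArithmeticFunction.cardFactors (pr (n - k) ^ 2 - 2) : ℝ) ≤ (1 + ε) * L)) ∪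
      (Icc 1 (n - 1)).filter
        (fun k => ¬ ((ArithmeticFunction.cardFactors (pr (pr (n - k)) ^ 2 - 2) : ℝ) ≤
          (exp 1 + ε) * L))) := by
    intro k hk
    rw [mem_filter] at hk
    rw [mem_union, mem_union, mem_filter, mem_filter, mem_filter]
    by_contra hcon
    push Not at hcon
    exact hk.2 ⟨hcon.1 hk.1, hcon.2.1 hk.1, hcon.2.2 hk.1⟩
  have hcard : (((Icc 1 (n - 1)).filter (fun k => ¬ Good ε n k (n - k))).card : ℝ) ≤
      K * n * W := by
    have h3 := (card_le_card hsub).trans ((card_union_le _ _).trans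
      (Nat.add_le_add_left (card_union_le _ _) _))
    have h4 : (((Icc 1 (n - 1)).filter (fun k => ¬ Good ε n k (n - k))).card : ℝ) ≤ _ :=
      Nat.cast_le.2 h3
    push_cast at h4
    have h5 : K * n * W = 2 * (2 * |C1| * (C * n * W)) + 2 * |C2| * (2 * C ^ 2 * n * W) := by
      rw [hK]
      ring
    rw [h5]
    linarith
  refine (by convert hcard : _ ≤ K * n * W).trans ?_
  have hsplit : W = (log (n : ℝ)) ^ (-δ) * (log (n : ℝ)) ^ (-δ) := by
    rw [hW, ← rpow_add hl0]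
    congr 1
    ring
  have hinv : (log (n : ℝ)) ^ (-δ) = ((log (n : ℝ)) ^ δ)⁻¹ := rpow_neg hl0.le δ
  have hpos : 0 < (log (n : ℝ)) ^ δ := rpow_pos_of_pos hl0 δ
  rw [hsplit, hinv]
  exact fin_le hn0.le hpos hKn

end Pool.Agent.H30.PF
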