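import Pool.Agent.H30.PF.Targets

/-!
Module GM of the board pf_modules.
-/

set_option autoImplicit false

open Finset Real

namespace Pool.Agent.H30.PF

theorem G_nonneg {z : ℝ} (hz : 1 ≤ z) (d : ℕ) : 0 ≤ G z d :=
  prod_nonneg fun _ _ => sub_nonneg.2 (pow_le_pow_right₀ hz (Nat.sub_le _ _))

theorem sq_mod_of_dvd {p d : ℕ} (hp : 3 ≤ p) (h : d ∣ p ^ 2 - 2) : p ^ 2 % d = 2 % d := by
  have h2 : 2 ≤ p ^ 2 := by nlinarith
  exact ((Nat.modEq_iff_dvd' h2).2 h).symm

theorem odd_of_dvd {p d : ℕ} (hp : p.Prime) (hp3 : 3 ≤ p) (h : d ∣ p ^ 2 - 2) : Odd d := by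
  have h1 : Odd p := hp.odd_of_ne_two (by omega)
  have h2 : Odd (p ^ 2 - 2) := by
    have h3 : Odd (p ^ 2) := h1.pow
    have h4 : 2 ≤ p ^ 2 := by nlinarith
    exact Nat.Odd.sub_even h4 h3 even_two
  exact h2.of_dvd_nat h

theorem list_prod_le (v : ℕ) : ∀ l : List ℕ, (∀ q ∈ l, q ≤ v) → l.prod ≤ v ^ l.length := by
  intro l
  induction l with
  | nil => intro _; simp
  | cons a l ih =>
    intro h
    rw [List.prod_cons, List.length_cons, pow_succ, mul_comm]
    exact Nat.mul_le_mul (ih fun q hq => h q (List.mem_cons_of_mem _ hq)) (h a List.mem_cons_self)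

theorem gm (hTR : T_TR) (hRT : T_RT) (hBT : T_BT) (hEU : T_EU) : T_GM := by
  intro z hz
  obtain ⟨C1, hC1, hBT⟩ := hBT
  obtain ⟨C2, hEU⟩ := hEU z hz
  refine ⟨C1 * exp C2, by positivity, ?_⟩
  intro x u v J hx hvJ hq
  set S := (Icc 3 x).filter Nat.Prime with hS
  let F : ℕ → Prop := fun d => d.primeFactorsList.length ≤ J ∧ ∀ q ∈ d.primeFactors, u < q ∧ q ≤ v
  have hSp : ∀ p ∈ S, p.Prime ∧ 3 ≤ p ∧ p ≤ x := by
    intro p hp
    rw [hS, mem_filter, mem_Icc] at hp
    exact ⟨hp.2, hp.1.1, hp.1.2⟩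
  have hne : ∀ p ∈ S, p ^ 2 - 2 ≠ 0 := by
    intro p hp
    have := (hSp p hp).2.1
    have h2 : 9 ≤ p ^ 2 := by nlinarith
    omega
  classical
  set D := S.biUnion (fun p => (p ^ 2 - 2).divisors.filter F) with hD
  set P := (Ioc u v).filter (fun q => q.Prime ∧ S8 q) with hP
  have hDp : ∀ d ∈ D, d ≠ 0 ∧ Odd d ∧ F d ∧ ∀ q ∈ d.primeFactors, S8 q := by
    intro d hd
    rw [hD, mem_biUnion] at hd
    obtain ⟨p, hp, hd⟩ := hd
    rw [mem_filter, Nat.mem_divisors] at hd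
    obtain ⟨⟨hd1, hd2⟩, hF⟩ := hd
    obtain ⟨hpp, hp3, _⟩ := hSp p hp
    have ho := odd_of_dvd hpp hp3 hd1
    exact ⟨fun h => by rw [h] at hd1; exact hd2 (zero_dvd_iff.1 hd1), ho, hF,
      ((hRT d ho).2 p (sq_mod_of_dvd hp3 hd1)).2⟩
  have hd4 : ∀ d ∈ D, d ^ 4 ≤ x := by
    intro d hd
    obtain ⟨hd0, _, hF, _⟩ := hDp d hd
    rcases eq_or_ne d 1 with rfl | h1
    · simpa using (by omega : 1 ≤ x)
    · have hv : 1 ≤ v := by
        obtain ⟨q, hq1, hq2⟩ := Nat.exists_prime_and_dvd h1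
        have := hF.2 q (Nat.mem_primeFactors.2 ⟨hq1, hq2, hd0⟩)
        have := hq1.two_le
        omega
      have h2 : d ≤ v ^ J := by
        calc d = d.primeFactorsList.prod := (Nat.prod_primeFactorsList hd0).symm
          _ ≤ v ^ d.primeFactorsList.length :=
            list_prod_le v _ (fun q hq => (hF.2 q (Nat.mem_primeFactors_iff_mem_primeFactorsList.2 hq)).2)
          _ ≤ v ^ J := Nat.pow_le_pow_right hv hF.1
      calc d ^ 4 ≤ (v ^ J) ^ 4 := Nat.pow_le_pow_left h2 4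
        _ = v ^ (4 * J) := by rw [← pow_mul, mul_comm]
        _ ≤ x := hvJ
  have hx0 : (0 : ℝ) ≤ x := Nat.cast_nonneg x
  have hlx : 0 < log x := log_pos (by exact_mod_cast (by omega : 1 < x))
  -- the number of primes
  have hcnt : ∀ d ∈ D, ((S.filter (fun p => d ∣ p ^ 2 - 2)).card : ℝ) ≤
      2 ^ d.primeFactors.card * (C1 * x / (d.totient * log x)) := by
    intro d hd
    obtain ⟨hd0, hodd, _, _⟩ := hDp d hd
    set Rts := (range d).filter (fun a => a ^ 2 % d = 2 % d) with hR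
    have hsub : S.filter (fun p => d ∣ p ^ 2 - 2) ⊆
        Rts.biUnion (fun a => (Icc 1 x).filter (fun p => p.Prime ∧ p % d = a % d)) := by
      intro p hp
      rw [mem_filter] at hp
      obtain ⟨hpS, hpd⟩ := hp
      obtain ⟨hpp, hp3, hpx⟩ := hSp p hpS
      rw [mem_biUnion]
      refine ⟨p % d, ?_, ?_⟩
      · rw [hR, mem_filter, mem_range]
        refine ⟨Nat.mod_lt _ (Nat.pos_of_ne_zero hd0), ?_⟩
        rw [← Nat.pow_mod]
        exact sq_mod_of_dvd hp3 hpd
      · rw [mem_filter, mem_Icc]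
        exact ⟨⟨by omega, hpx⟩, hpp, (Nat.mod_mod _ _).symm⟩
    have hB0 : 0 ≤ C1 * x / (d.totient * log x) := by positivity
    have h1 : ((S.filter (fun p => d ∣ p ^ 2 - 2)).card : ℝ) ≤
        ∑ a ∈ Rts, (((Icc 1 x).filter (fun p => p.Prime ∧ p % d = a % d)).card : ℝ) := by
      exact_mod_cast (card_le_card hsub).trans card_biUnion_le
    refine h1.trans ?_
    have h2 : ∑ a ∈ Rts, (((Icc 1 x).filter (fun p => p.Prime ∧ p % d = a % d)).card : ℝ) ≤
        ∑ a ∈ Rts, C1 * x / (d.totient * log x) := by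
      refine sum_le_sum fun a ha => ?_
      rw [hR, mem_filter] at ha
      exact hBT x d a hx (Nat.pos_of_ne_zero hd0) (hd4 d hd) ((hRT d hodd).2 a ha.2).1
    refine h2.trans ?_
    rw [sum_const, nsmul_eq_mul]
    refine mul_le_mul_of_nonneg_right ?_ hB0
    exact_mod_cast (hRT d hodd).1
  calc ∑ p ∈ S, z ^ (min (Om u v (p ^ 2 - 2)) J)
      ≤ ∑ p ∈ S, ∑ d ∈ (p ^ 2 - 2).divisors.filter F, G z d :=
        sum_le_sum fun p hp => hTR z u v J _ hz (hne p hp)
    _ ≤ ∑ p ∈ S, ∑ d ∈ D, (if d ∣ p ^ 2 - 2 then G z d else 0) := by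
        refine sum_le_sum fun p hp => ?_
        rw [← sum_filter]
        refine sum_le_sum_of_subset_of_nonneg ?_ (fun d _ _ => G_nonneg hz d)
        intro d hd
        rw [mem_filter]
        refine ⟨?_, Nat.dvd_of_mem_divisors (mem_filter.1 hd).1⟩
        rw [hD, mem_biUnion]
        exact ⟨p, hp, hd⟩
    _ = ∑ d ∈ D, G z d * ((S.filter (fun p => d ∣ p ^ 2 - 2)).card : ℝ) := by
        rw [sum_comm]
        refine sum_congr rfl fun d _ => ?_
        rw [← sum_filter, sum_const, nsmul_eq_mul, mul_comm]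
    _ ≤ ∑ d ∈ D, C1 * x / log x * (G z d * 2 ^ d.primeFactors.card / d.totient) := by
        refine sum_le_sum fun d hd => ?_
        refine (mul_le_mul_of_nonneg_left (hcnt d hd) (G_nonneg hz d)).trans (le_of_eq ?_)
        have hφ : (d.totient : ℝ) ≠ 0 := by
          exact_mod_cast (Nat.totient_pos.2 (Nat.pos_of_ne_zero (hDp d hd).1)).ne'
        field_simp
    _ = C1 * x / log x * ∑ d ∈ D, G z d * 2 ^ d.primeFactors.card / d.totient := by
        rw [mul_sum]
    _ ≤ C1 * x / log x * exp (C2 + 2 * (z - 1) * ∑ q ∈ P, (1 : ℝ) / q) := by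
        refine mul_le_mul_of_nonneg_left ?_ (by positivity)
        refine hEU P ?_ D ?_
        · intro q hqP
          rw [hP, mem_filter, mem_Ioc] at hqP
          obtain ⟨⟨h1, h2⟩, h3, h4⟩ := hqP
          refine ⟨h3, ?_, hq q h3 h1 h2 h4⟩
          have := h3.two_le
          rcases h4 with h4 | h4 <;> omega
        · intro d hd
          obtain ⟨hd0, _, hF, h8⟩ := hDp d hd
          refine ⟨hd0, fun q hq => ?_⟩
          rw [hP, mem_filter, mem_Ioc]
          exact ⟨hF.2 q hq, Nat.prime_of_mem_primeFactors hq, h8 q hq⟩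
    _ = _ := by
        rw [exp_add]
        ring

end Pool.Agent.H30.PF
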